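import Mathlib

/-!
# Self-similar sets meeting all `k`-planes with small sumsets
-/

namespace Pool.Agent.Results.MP_ab9b99_an.SelfSimilar

open Filter Topology Pointwise

/-- Euclidean space `ℝ^d`. -/
abbrev E (d : ℕ) := EuclideanSpace ℝ (Fin d)

/-- The unit cube `[0,1]^d`. -/
def cube (d : ℕ) : Set (E d) := {x | ∀ i, 0 ≤ x i ∧ x i ≤ 1}

/-- The `ℓ`-fold sumset. -/
def sumset {d : ℕ} (ℓ : ℕ) (K : Set (E d)) : Set (E d) :=
  {x | ∃ y : Fin ℓ → E d, (∀ i, y i ∈ K) ∧ x = ∑ i, y i}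

/-- `K` is an `(ℓ, k, d)`-set. -/
structure IsLKD (ℓ k d : ℕ) (K : Set (E d)) : Prop where
  compact : IsCompact K
  sub : K ⊆ cube d
  meets : ∀ P : AffineSubspace ℝ (E d), Module.finrank ℝ P.direction = k →
    ((P : Set (E d)) ∩ cube d).Nonempty → ((P : Set (E d)) ∩ K).Nonempty
  nowhere : IsNowhereDense (sumset ℓ K)

/-- `K` is self-similar: nonempty, compact and the union of finitely many images of itself under
contracting similarities. -/
def IsSelfSimilar {d : ℕ} (K : Set (E d)) : Prop :=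
  K.Nonempty ∧ IsCompact K ∧ ∃ (m : ℕ) (f : Fin m → E d → E d) (r : Fin m → ℝ),
    (∀ i, 0 < r i ∧ r i < 1 ∧ ∀ x y, dist (f i x) (f i y) = r i * dist x y) ∧
      K = ⋃ i, f i '' K

section general

variable {d : ℕ}

lemma isCompact_cube (d : ℕ) : IsCompact (cube d) := by
  have h : cube d = (EuclideanSpace.equiv (Fin d) ℝ).toHomeomorph ⁻¹' (Set.Icc 0 1) := by
    ext x
    simp only [cube, Set.mem_ofPred_eq, Set.mem_preimage, Set.mem_Icc]
    constructor
    · intro h; exact ⟨fun i => (h i).1, fun i => (h i).2⟩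
    · intro h i; exact ⟨h.1 i, h.2 i⟩
  rw [h, (EuclideanSpace.equiv (Fin d) ℝ).toHomeomorph.isCompact_preimage]
  exact isCompact_Icc

/-- The integer vector with coordinates `z`. -/
noncomputable def vec (z : Fin d → ℤ) : E d := WithLp.toLp 2 (fun j => (z j : ℝ))

@[simp] lemma vec_apply (z : Fin d → ℤ) (j : Fin d) : vec z j = z j := rfl

lemma vec_add (z w : Fin d → ℤ) : vec (z + w) = vec z + vec w := by
  ext j; simp

/-- The similarity `x ↦ (x + z) / N`. -/
noncomputable def f (N : ℕ) (z : Fin d → ℤ) (x : E d) : E d := (N : ℝ)⁻¹ • (x + vec z)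

/-- Its inverse. -/
noncomputable def g (N : ℕ) (z : Fin d → ℤ) (x : E d) : E d := (N : ℝ) • x - vec z

lemma g_f {N : ℕ} (hN : 0 < N) (z : Fin d → ℤ) (x : E d) : g N z (f N z x) = x := by
  have : (N : ℝ) ≠ 0 := by positivity
  simp [g, f, smul_smul, this]

lemma f_g {N : ℕ} (hN : 0 < N) (z : Fin d → ℤ) (x : E d) : f N z (g N z x) = x := by
  have : (N : ℝ) ≠ 0 := by positivity
  simp [g, f, smul_smul, this]

lemma continuous_f (N : ℕ) (z : Fin d → ℤ) : Continuous (f N z) := by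
  unfold f; fun_prop

lemma continuous_g (N : ℕ) (z : Fin d → ℤ) : Continuous (g N z) := by
  unfold g; fun_prop

lemma dist_f {N : ℕ} (z : Fin d → ℤ) (x y : E d) :
    dist (f N z x) (f N z y) = (N : ℝ)⁻¹ * dist x y := by
  rw [f, f, dist_smul₀, dist_add_right, Real.norm_of_nonneg (by positivity)]

/-- The digits: the grid cubes of side `1/N` which meet `K`. -/
def D (N : ℕ) (K : Set (E d)) : Set (Fin d → ℤ) :=
  {z | (∀ j, 0 ≤ z j ∧ z j < N) ∧ (f N z '' cube d ∩ K).Nonempty}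

lemma D_finite (N : ℕ) (K : Set (E d)) : (D N K).Finite := by
  apply (Set.finite_Icc (0 : Fin d → ℤ) (fun _ => (N : ℤ))).subset
  intro z hz
  exact ⟨fun j => (hz.1 j).1, fun j => (hz.1 j).2.le⟩

/-- The level sets. -/
def lev (N : ℕ) (K : Set (E d)) : ℕ → Set (E d)
  | 0 => cube d
  | n + 1 => ⋃ z ∈ D N K, f N z '' lev N K n

/-- The self-similar set. -/
def F (N : ℕ) (K : Set (E d)) : Set (E d) := ⋂ n, lev N K n

lemma f_cube {N : ℕ} (hN : 0 < N) {z : Fin d → ℤ} (hz : ∀ j, 0 ≤ z j ∧ z j < N) {x : E d}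
    (hx : x ∈ cube d) : f N z x ∈ cube d := by
  intro j
  have hNr : (0 : ℝ) < N := by exact_mod_cast hN
  obtain ⟨h1, h2⟩ := hz j
  obtain ⟨h3, h4⟩ := hx j
  have h1' : (0 : ℝ) ≤ z j := by exact_mod_cast h1
  have h2' : (z j : ℝ) + 1 ≤ N := by exact_mod_cast h2
  have e : (f N z x) j = (N : ℝ)⁻¹ * (x j + z j) := by simp [f, mul_add]
  rw [e]
  constructor
  · positivity
  · rw [inv_mul_le_iff₀ hNr]
    linarith

lemma isCompact_lev (N : ℕ) (K : Set (E d)) (n : ℕ) : IsCompact (lev N K n) := by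
  induction n with
  | zero => exact isCompact_cube d
  | succ n ih =>
    exact (D_finite N K).isCompact_biUnion fun z _ => ih.image (continuous_f N z)

lemma lev_succ_subset {N : ℕ} (hN : 0 < N) (K : Set (E d)) (n : ℕ) :
    lev N K (n + 1) ⊆ lev N K n := by
  induction n with
  | zero =>
    intro x hx
    simp only [lev, Set.mem_iUnion] at hx
    obtain ⟨z, hz, y, hy, rfl⟩ := hx
    exact f_cube hN hz.1 hy
  | succ n ih =>
    intro x hx
    rw [lev, Set.mem_iUnion₂] at hx ⊢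
    obtain ⟨z, hz, y, hy, rfl⟩ := hx
    exact ⟨z, hz, y, ih hy, rfl⟩

lemma lev_antitone {N : ℕ} (hN : 0 < N) (K : Set (E d)) : Antitone (lev N K) :=
  antitone_nat_of_succ_le (lev_succ_subset hN K)

lemma isCompact_F (N : ℕ) (K : Set (E d)) : IsCompact (F N K) :=
  (isCompact_lev N K 0).of_isClosed_subset (isClosed_iInter fun n => (isCompact_lev N K n).isClosed)
    (Set.iInter_subset _ 0)

lemma F_subset_cube (N : ℕ) (K : Set (E d)) : F N K ⊆ cube d := Set.iInter_subset _ 0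

/-- `F` is the union of its images. -/
lemma F_eq {N : ℕ} (hN : 0 < N) (K : Set (E d)) : F N K = ⋃ z ∈ D N K, f N z '' F N K := by
  apply Set.Subset.antisymm
  · intro x hx
    rw [F, Set.mem_iInter] at hx
    by_contra hcon
    simp only [Set.mem_iUnion, not_exists] at hcon
    -- for each digit z there is a level at which x fails
    have h1 : ∀ z ∈ D N K, ∃ n, x ∉ f N z '' lev N K n := by
      intro z hz
      by_contra h
      push Not at h
      apply hcon z hz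
      refine ⟨g N z x, ?_, f_g hN z x⟩
      rw [F, Set.mem_iInter]
      intro n
      obtain ⟨y, hy, hyx⟩ := h n
      rw [← hyx, g_f hN]
      exact hy
    choose! m hm using h1
    obtain ⟨M, hM⟩ := ((D_finite N K).image m).bddAbove
    have h2 := hx (M + 1)
    rw [lev, Set.mem_iUnion₂] at h2
    obtain ⟨z, hz, y, hy, hyx⟩ := h2
    apply hm z hz
    exact ⟨y, lev_antitone hN K (hM (Set.mem_image_of_mem m hz)) hy, hyx⟩
  · intro x hx
    rw [Set.mem_iUnion₂] at hx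
    obtain ⟨z, hz, y, hy, rfl⟩ := hx
    rw [F, Set.mem_iInter] at hy ⊢
    intro n
    apply lev_succ_subset hN K n
    rw [lev, Set.mem_iUnion₂]
    exact ⟨z, hz, y, hy n, rfl⟩

/-! ### Meeting the planes -/

/-- The pull-back of a plane. -/
noncomputable def pull (N : ℕ) (z : Fin d → ℤ) (P : AffineSubspace ℝ (E d)) :
    AffineSubspace ℝ (E d) :=
  P.map ((N : ℝ) • AffineMap.id ℝ (E d) - AffineMap.const ℝ (E d) (vec z))

lemma mem_pull {N : ℕ} (hN : 0 < N) (z : Fin d → ℤ) (P : AffineSubspace ℝ (E d)) (x : E d) :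
    x ∈ pull N z P ↔ f N z x ∈ P := by
  rw [pull, AffineSubspace.mem_map]
  constructor
  · rintro ⟨y, hy, rfl⟩
    have : ((N : ℝ) • AffineMap.id ℝ (E d) - AffineMap.const ℝ (E d) (vec z)) y = g N z y := by
      simp [g]
    rw [this, f_g hN]
    exact hy
  · intro h
    refine ⟨f N z x, h, ?_⟩
    have : ((N : ℝ) • AffineMap.id ℝ (E d) - AffineMap.const ℝ (E d) (vec z)) (f N z x)
        = g N z (f N z x) := by
      simp [g]
    rw [this, g_f hN]

lemma direction_pull {N : ℕ} (hN : 0 < N) (z : Fin d → ℤ) (P : AffineSubspace ℝ (E d)) :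
    (pull N z P).direction = P.direction := by
  have hN' : (N : ℝ) ≠ 0 := by positivity
  rw [pull, AffineSubspace.map_direction]
  have : ((N : ℝ) • AffineMap.id ℝ (E d) - AffineMap.const ℝ (E d) (vec z)).linear
      = (N : ℝ) • LinearMap.id := by
    ext x
    simp
  rw [this, Submodule.map_smul _ _ _ hN', Submodule.map_id]

/-- Every point of the cube lies in a grid cube. -/
lemma exists_cell {N : ℕ} (hN : 0 < N) {x : E d} (hx : x ∈ cube d) :
    ∃ z : Fin d → ℤ, (∀ j, 0 ≤ z j ∧ z j < N) ∧ g N z x ∈ cube d := by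
  have hNr : (0 : ℝ) < N := by exact_mod_cast hN
  refine ⟨fun j => min ⌊(N : ℝ) * x j⌋ ((N : ℤ) - 1), fun j => ⟨?_, ?_⟩, fun j => ?_⟩
  · apply le_min
    · exact Int.floor_nonneg.mpr (mul_nonneg hNr.le (hx j).1)
    · have : (1 : ℤ) ≤ N := by exact_mod_cast hN
      linarith
  · have := min_le_right ⌊(N : ℝ) * x j⌋ ((N : ℤ) - 1)
    simp only
    omega
  · have e : (g N (fun j => min ⌊(N : ℝ) * x j⌋ ((N : ℤ) - 1)) x) j
        = N * x j - ((min ⌊(N : ℝ) * x j⌋ ((N : ℤ) - 1) : ℤ) : ℝ) := by simp [g]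
    rw [e]
    have h1 : (N : ℝ) * x j ≤ N := by nlinarith [(hx j).2]
    rcases le_total ⌊(N : ℝ) * x j⌋ ((N : ℤ) - 1) with h | h
    · rw [min_eq_left h]
      constructor
      · linarith [Int.floor_le ((N : ℝ) * x j)]
      · linarith [Int.lt_floor_add_one ((N : ℝ) * x j)]
    · rw [min_eq_right h]
      have h' : (((N : ℤ) - 1 : ℤ) : ℝ) ≤ (⌊(N : ℝ) * x j⌋ : ℝ) := by exact_mod_cast h
      push_cast at h' ⊢
      constructor
      · linarith [Int.floor_le ((N : ℝ) * x j)]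
      · linarith

lemma meets_lev {N : ℕ} (hN : 0 < N) {ℓ k : ℕ} {K : Set (E d)} (hK : IsLKD ℓ k d K) (n : ℕ) :
    ∀ P : AffineSubspace ℝ (E d), Module.finrank ℝ P.direction = k →
      ((P : Set (E d)) ∩ cube d).Nonempty → ((P : Set (E d)) ∩ lev N K n).Nonempty := by
  induction n with
  | zero => intro P _ h; exact h
  | succ n ih =>
    intro P hP hPc
    obtain ⟨x, hxP, hxK⟩ := hK.meets P hP hPc
    obtain ⟨z, hz, hgz⟩ := exists_cell hN (hK.sub hxK)
    have hzD : z ∈ D N K := ⟨hz, x, ⟨g N z x, hgz, f_g hN z x⟩, hxK⟩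
    have h1 : (((pull N z P : AffineSubspace ℝ (E d)) : Set (E d)) ∩ cube d).Nonempty := by
      refine ⟨g N z x, ?_, hgz⟩
      rw [SetLike.mem_coe, mem_pull hN, f_g hN]
      exact hxP
    obtain ⟨y, hyP, hyl⟩ := ih (pull N z P) (by rw [direction_pull hN]; exact hP) h1
    rw [SetLike.mem_coe, mem_pull hN] at hyP
    refine ⟨f N z y, hyP, ?_⟩
    rw [lev, Set.mem_iUnion₂]
    exact ⟨z, hzD, y, hyl, rfl⟩

lemma meets_F {N : ℕ} (hN : 0 < N) {ℓ k : ℕ} {K : Set (E d)} (hK : IsLKD ℓ k d K)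
    (P : AffineSubspace ℝ (E d)) (hP : Module.finrank ℝ P.direction = k)
    (hPc : ((P : Set (E d)) ∩ cube d).Nonempty) : ((P : Set (E d)) ∩ F N K).Nonempty := by
  have hcl : IsClosed (P : Set (E d)) := P.closed_of_finiteDimensional
  have h := IsCompact.nonempty_iInter_of_sequence_nonempty_isCompact_isClosed
    (fun n => (P : Set (E d)) ∩ lev N K n)
    (fun n => Set.inter_subset_inter_right _ (lev_succ_subset hN K n))
    (fun n => meets_lev hN hK n P hP hPc)
    ((isCompact_lev N K 0).inter_left hcl)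
    (fun n => hcl.inter (isCompact_lev N K n).isClosed)
  rwa [← Set.inter_iInter] at h

/-! ### The sumset -/

/-- The periodisation of the sumset. -/
def S (ℓ : ℕ) (K : Set (E d)) : Set (E d) :=
  {x | ∃ y ∈ sumset ℓ K, ∃ z : Fin d → ℤ, x = y + vec z}

lemma sumset_isCompact {ℓ : ℕ} {K : Set (E d)} (hK : IsCompact K) : IsCompact (sumset ℓ K) := by
  have h : sumset ℓ K = (fun y : Fin ℓ → E d => ∑ i, y i) '' (Set.univ.pi fun _ => K) := by
    ext x
    simp only [sumset, Set.mem_ofPred_eq, Set.mem_image, Set.mem_pi, Set.mem_univ, true_implies]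
    constructor
    · rintro ⟨y, hy, rfl⟩; exact ⟨y, hy, rfl⟩
    · rintro ⟨y, hy, rfl⟩; exact ⟨y, hy, rfl⟩
  rw [h]
  exact (isCompact_univ_pi fun _ => hK).image (by fun_prop)

/-- The periodised sumset of an `(ℓ, k, d)`-set misses a ball. -/
lemma exists_missed {ℓ k : ℕ} {K : Set (E d)} (hK : IsLKD ℓ k d K) :
    ∃ (c : E d) (r : ℝ), 0 < r ∧ ∀ x ∈ S ℓ K, r ≤ dist x c := by
  have hcomp := sumset_isCompact (ℓ := ℓ) hK.compact
  -- each translate of the sumset is nowhere dense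
  have hmeag : IsMeagre (⋃ z : Fin d → ℤ, (fun y => y + vec z) '' sumset ℓ K) := by
    apply isMeagre_iUnion
    intro z
    apply IsNowhereDense.isMeagre
    have hcl : IsClosed ((fun y => y + vec z) '' sumset ℓ K) :=
      (hcomp.image (by fun_prop)).isClosed
    rw [hcl.isNowhereDense_iff]
    have h1 : interior (sumset ℓ K) = ∅ := by
      have := hK.nowhere
      rwa [hcomp.isClosed.isNowhereDense_iff] at this
    have h2 := (Homeomorph.addRight (vec z)).image_interior (sumset ℓ K)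
    rw [h1, Set.image_empty] at h2
    exact h2.symm
  have hS : S ℓ K = ⋃ z : Fin d → ℤ, (fun y => y + vec z) '' sumset ℓ K := by
    ext x
    simp only [S, Set.mem_ofPred_eq, Set.mem_iUnion, Set.mem_image]
    constructor
    · rintro ⟨y, hy, z, rfl⟩; exact ⟨z, y, hy, rfl⟩
    · rintro ⟨z, y, hy, rfl⟩; exact ⟨y, hy, z, rfl⟩
  have hdense : Dense (S ℓ K)ᶜ := by
    rw [hS]
    exact dense_of_mem_residual hmeag
  -- closedness of the periodisation
  have hclosed : IsClosed (S ℓ K) := by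
    have hZ : IsClosed (Set.range (vec : (Fin d → ℤ) → E d)) := by
      have e : Set.range (vec : (Fin d → ℤ) → E d)
          = (EuclideanSpace.equiv (Fin d) ℝ).toHomeomorph ⁻¹'
            (Set.univ.pi fun _ => Set.range ((↑) : ℤ → ℝ)) := by
        ext x
        simp only [Set.mem_range, Set.mem_preimage, Set.mem_pi, Set.mem_univ, true_implies]
        constructor
        · rintro ⟨z, rfl⟩ i; exact ⟨z i, rfl⟩
        · intro h
          choose z hz using h
          refine ⟨z, ?_⟩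
          ext i
          exact hz i
      rw [e]
      apply IsClosed.preimage (Homeomorph.continuous _)
      apply isClosed_set_pi
      intro i _
      exact Int.isClosedEmbedding_coe_real.isClosed_range
    have e : S ℓ K = sumset ℓ K + Set.range (vec : (Fin d → ℤ) → E d) := by
      ext x
      simp only [S, Set.mem_ofPred_eq, Set.mem_add, Set.mem_range]
      constructor
      · rintro ⟨y, hy, z, rfl⟩; exact ⟨y, hy, vec z, ⟨z, rfl⟩, rfl⟩
      · rintro ⟨y, hy, _, ⟨z, rfl⟩, rfl⟩; exact ⟨y, hy, z, rfl⟩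
    rw [e]
    exact hZ.add_left_of_isCompact hcomp
  obtain ⟨c, hc⟩ := hdense.nonempty
  obtain ⟨r, hr, hball⟩ := Metric.isOpen_iff.mp hclosed.isOpen_compl c hc
  refine ⟨c, r, hr, fun x hx => ?_⟩
  by_contra h
  push Not at h
  exact hball (Metric.mem_ball.mpr h) hx

lemma vec_sum {ι : Type*} (s : Finset ι) (a : ι → Fin d → ℤ) :
    vec (∑ i ∈ s, a i) = ∑ i ∈ s, vec (a i) := by
  ext j
  simp

lemma vec_nsmul (N : ℕ) (z : Fin d → ℤ) : vec (N • z) = (N : ℝ) • vec z := by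
  ext j
  simp

lemma smul_S {N : ℕ} (hN : 0 < N) (ℓ : ℕ) (K : Set (E d)) {x : E d} (hx : x ∈ S ℓ (F N K)) :
    (N : ℝ) • x ∈ S ℓ (F N K) := by
  obtain ⟨_, ⟨y, hy, rfl⟩, z, rfl⟩ := hx
  have h1 : ∀ i, ∃ a : Fin d → ℤ, ∃ w ∈ F N K, (N : ℝ) • y i = w + vec a := by
    intro i
    have h2 := hy i
    rw [F_eq hN, Set.mem_iUnion₂] at h2
    obtain ⟨a, _, w, hw, hwy⟩ := h2
    refine ⟨a, w, hw, ?_⟩
    have h3 : (N : ℝ) ≠ 0 := by positivity
    rw [← hwy, f, smul_smul, mul_inv_cancel₀ h3, one_smul]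
  choose a w hw haw using h1
  refine ⟨∑ i, w i, ⟨w, hw, rfl⟩, ∑ i, a i + N • z, ?_⟩
  rw [smul_add, Finset.smul_sum, Finset.sum_congr rfl (fun i _ => haw i), Finset.sum_add_distrib,
    vec_add, vec_sum, vec_nsmul, add_assoc]

lemma pow_smul_S {N : ℕ} (hN : 0 < N) (ℓ : ℕ) (K : Set (E d)) (m : ℕ) {x : E d}
    (hx : x ∈ S ℓ (F N K)) : ((N : ℝ) ^ m) • x ∈ S ℓ (F N K) := by
  induction m with
  | zero => simpa using hx
  | succ m ih =>
    have := smul_S hN ℓ K ih
    rwa [smul_smul, ← pow_succ'] at this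

lemma S_univ {N : ℕ} (hN : 2 ≤ N) (ℓ : ℕ) (K : Set (E d))
    (h : (interior (sumset ℓ (F N K))).Nonempty) (p : E d) : p ∈ S ℓ (F N K) := by
  have hN0 : 0 < N := by omega
  obtain ⟨c, hc⟩ := h
  obtain ⟨r, hr, hball⟩ := Metric.isOpen_iff.mp isOpen_interior c hc
  obtain ⟨R, hR⟩ := (isCompact_cube d).isBounded.exists_norm_le
  have hNr : (1 : ℝ) < N := by
    have : (2 : ℝ) ≤ N := by exact_mod_cast hN
    linarith
  obtain ⟨m, hm⟩ := pow_unbounded_of_one_lt (R / r) hNr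
  have hpow : (0 : ℝ) < (N : ℝ) ^ m := by positivity
  set z : Fin d → ℤ := fun j => ⌊(((N : ℝ) ^ m) • c - p) j⌋ with hz
  have hcube : ((N : ℝ) ^ m) • c - p - vec z ∈ cube d := by
    intro j
    have e : (((N : ℝ) ^ m) • c - p - vec z) j = (((N : ℝ) ^ m) • c - p) j - ⌊(((N : ℝ) ^ m) • c - p) j⌋ := by
      rw [hz]
      rfl
    rw [e]
    constructor
    · linarith [Int.floor_le ((((N : ℝ) ^ m) • c - p) j)]
    · linarith [Int.lt_floor_add_one ((((N : ℝ) ^ m) • c - p) j)]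
  have hnorm := hR _ hcube
  set q : E d := ((N : ℝ) ^ m)⁻¹ • (p + vec z) with hq
  have hqc : q ∈ Metric.ball c r := by
    rw [Metric.mem_ball, dist_eq_norm]
    have e : q - c = -(((N : ℝ) ^ m)⁻¹ • (((N : ℝ) ^ m) • c - p - vec z)) := by
      rw [hq, ← smul_neg]
      have : c = ((N : ℝ) ^ m)⁻¹ • (((N : ℝ) ^ m) • c) := by
        rw [smul_smul, inv_mul_cancel₀ hpow.ne', one_smul]
      nth_rewrite 1 [this]
      rw [← smul_sub]
      congr 1
      abel
    rw [e, norm_neg, norm_smul, norm_inv, Real.norm_of_nonneg hpow.le,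
      inv_mul_lt_iff₀ hpow]
    have h1 : R < (N : ℝ) ^ m * r := by
      rwa [div_lt_iff₀ hr] at hm
    linarith
  have hqS : q ∈ S ℓ (F N K) := ⟨q, interior_subset (hball hqc), 0, by
    have : vec (0 : Fin d → ℤ) = 0 := by ext j; simp
    rw [this, add_zero]⟩
  have h2 := pow_smul_S hN0 ℓ K m hqS
  rw [hq, smul_smul, mul_inv_cancel₀ hpow.ne', one_smul] at h2
  obtain ⟨y, hy, w, hw⟩ := h2
  refine ⟨y, hy, w - z, ?_⟩
  have e : vec (w - z) = vec w - vec z := by ext j; simp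
  rw [e, add_sub, ← hw]
  abel

/-- The periodised sumset of `F` is close to that of `K`. -/
lemma S_close {R : ℝ} (hR : ∀ x ∈ cube d, ‖x‖ ≤ R) {N : ℕ} (ℓ : ℕ) (K : Set (E d))
    {x : E d} (hx : x ∈ S ℓ (F N K)) : ∃ x' ∈ S ℓ K, dist x' x ≤ ℓ * ((N : ℝ)⁻¹ * (2 * R)) := by
  obtain ⟨_, ⟨y, hy, rfl⟩, z, rfl⟩ := hx
  have h1 : ∀ i, ∃ v ∈ K, dist v (y i) ≤ (N : ℝ)⁻¹ * (2 * R) := by
    intro i
    have h2 := hy i
    rw [F, Set.mem_iInter] at h2
    have h3 := h2 1
    rw [lev, Set.mem_iUnion₂] at h3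
    obtain ⟨a, ha, u, hu, huy⟩ := h3
    obtain ⟨_, ⟨v, hv, rfl⟩, hvK⟩ := ha.2
    refine ⟨f N a v, hvK, ?_⟩
    rw [← huy, dist_f]
    apply mul_le_mul_of_nonneg_left _ (by positivity)
    rw [dist_eq_norm]
    calc ‖v - u‖ ≤ ‖v‖ + ‖u‖ := norm_sub_le _ _
      _ ≤ R + R := add_le_add (hR v hv) (hR u hu)
      _ = 2 * R := by ring
  choose v hv hvy using h1
  refine ⟨∑ i, v i + vec z, ⟨∑ i, v i, ⟨v, hv, rfl⟩, z, rfl⟩, ?_⟩
  rw [dist_add_right]
  calc dist (∑ i, v i) (∑ i, y i) ≤ ∑ i, dist (v i) (y i) := dist_sum_sum_le _ _ _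
    _ ≤ ∑ _i : Fin ℓ, (N : ℝ)⁻¹ * (2 * R) := Finset.sum_le_sum fun i _ => hvy i
    _ = ℓ * ((N : ℝ)⁻¹ * (2 * R)) := by simp

lemma exists_plane {k : ℕ} (hk : k ≤ d) :
    ∃ P : AffineSubspace ℝ (E d), Module.finrank ℝ P.direction = k ∧ (0 : E d) ∈ P := by
  set b := (EuclideanSpace.basisFun (Fin d) ℝ).toBasis with hb
  have hli := b.linearIndependent.comp (Fin.castLE hk) (Fin.castLE_injective hk)
  have h1 := finrank_span_eq_card hli
  rw [Fintype.card_fin] at h1
  refine ⟨(Submodule.span ℝ (Set.range (b ∘ Fin.castLE hk))).toAffineSubspace, ?_, ?_⟩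
  · rw [Submodule.toAffineSubspace_direction]
    exact h1
  · rw [Submodule.mem_toAffineSubspace]
    exact Submodule.zero_mem _

end general

/-- **Main theorem.** If an `(ℓ, k, d)`-set exists then a self-similar one exists. -/
theorem result (ℓ k d : ℕ) (_hℓ : 0 < ℓ) (_hk : 0 < k) (hkd : k ≤ d)
    (h : ∃ K : Set (E d), IsLKD ℓ k d K) :
    ∃ K : Set (E d), IsLKD ℓ k d K ∧ IsSelfSimilar K := by
  obtain ⟨K, hK⟩ := h
  obtain ⟨c, r, hr, hmiss⟩ := exists_missed hK
  obtain ⟨R, hR⟩ := (isCompact_cube d).isBounded.exists_norm_le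
  obtain ⟨N₀, hN₀⟩ := exists_nat_gt (ℓ * (2 * R) / r)
  set N := N₀ + 2 with hN
  have hN0 : 0 < N := by omega
  have hNr : (0 : ℝ) < N := by exact_mod_cast hN0
  have hbound : ℓ * ((N : ℝ)⁻¹ * (2 * R)) < r := by
    have h1 : (ℓ * (2 * R) / r : ℝ) < N := by
      have : (N : ℝ) = N₀ + 2 := by rw [hN]; push_cast; ring
      linarith
    rw [div_lt_iff₀ hr] at h1
    have e : ℓ * ((N : ℝ)⁻¹ * (2 * R)) = (N : ℝ)⁻¹ * (ℓ * (2 * R)) := by ring
    rw [e, inv_mul_lt_iff₀ hNr]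
    exact h1
  refine ⟨F N K, ⟨isCompact_F N K, F_subset_cube N K, meets_F hN0 hK, ?_⟩, ?_, isCompact_F N K, ?_⟩
  · -- nowhere dense
    rw [(sumset_isCompact (isCompact_F N K)).isClosed.isNowhereDense_iff]
    by_contra hne
    have hne' := Set.nonempty_iff_ne_empty.mpr hne
    have hcS := S_univ (by omega : 2 ≤ N) ℓ K hne' c
    obtain ⟨x', hx', hd'⟩ := S_close hR ℓ K hcS
    have := hmiss x' hx'
    linarith
  · obtain ⟨P, hP, h0⟩ := exists_plane hkd
    obtain ⟨x, _, hx⟩ := meets_F hN0 hK P hP ⟨0, h0, fun i => by simp⟩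
    exact ⟨x, hx⟩
  · set s := (D_finite N K).toFinset with hs
    refine ⟨s.card, fun i => f N (s.equivFin.symm i : Fin d → ℤ), fun _ => (N : ℝ)⁻¹, ?_, ?_⟩
    · intro i
      refine ⟨by positivity, ?_, fun x y => dist_f _ x y⟩
      rw [inv_lt_one₀ hNr]
      have : (2 : ℝ) ≤ N := by exact_mod_cast (by omega : 2 ≤ N)
      linarith
    · nth_rewrite 1 [F_eq hN0]
      ext x
      simp only [Set.mem_iUnion]
      constructor
      · rintro ⟨z, hz, hx⟩
        have hz' : z ∈ s := by rw [hs, Set.Finite.mem_toFinset]; exact hz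
        exact ⟨s.equivFin ⟨z, hz'⟩, by simpa using hx⟩
      · rintro ⟨i, hx⟩
        have hz := (D_finite N K).mem_toFinset.mp (s.equivFin.symm i).2
        exact ⟨_, hz, hx⟩

end Pool.Agent.Results.MP_ab9b99_an.SelfSimilar
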